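import Pool.Agent.W670.ML.Defs2

set_option autoImplicit false

namespace Pool.Agent.W412.ML2.DD

open NumberField Pool.Agent.W670.ML

/-- The norm of an extended ideal. -/
theorem norm_map (B M : Type) [Field B] [NumberField B] [Field M] [NumberField M] [Algebra B M]
    (I : Ideal (𝓞 B)) :
    Ideal.absNorm (I.map (algebraMap (𝓞 B) (𝓞 M))) =
      Ideal.absNorm I ^ Module.finrank B M := by
  let _ : Algebra (FractionRing (𝓞 B)) (FractionRing (𝓞 M)) := FractionRing.liftAlgebra _ _
  rw [Ideal.absNorm_algebraMap, ← IsFractionRing.finrank_eq (𝓞 B) B (𝓞 M) M]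

/-- The tower formula. -/
theorem tower (h2 : S_DI) (K A M : Type) [Field K] [NumberField K] [Field A] [NumberField A]
    [Field M] [NumberField M] [Algebra K A] [Algebra K M] [Algebra A M] [IsScalarTower K A M] :
    relDisc K M = relDisc A M * relDisc K A ^ Module.finrank A M := by
  have e1 := h2.1 K M
  have e2 := h2.1 A M
  have e3 := h2.1 K A
  have hf : Module.finrank K A * Module.finrank A M = Module.finrank K M :=
    Module.finrank_mul_finrank K A M
  have hd : 0 < (discr K).natAbs := Int.natAbs_pos.mpr (discr_ne_zero K)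
  have hpos : 0 < (discr K).natAbs ^ Module.finrank K M := Nat.pow_pos hd
  apply Nat.eq_of_mul_eq_mul_right hpos
  rw [← e1, e2, e3, mul_pow, ← pow_mul, hf, mul_assoc]

theorem dd (h1 : Pool.Agent.W670.ML.S_DV) (h2 : Pool.Agent.W670.ML.S_DI) :
    Pool.Agent.W670.ML.S_DD := by
  intro K A B M _ _ _ _ _ _ _ _ _ _ _ _ _ _ _ hG
  rw [tower h2 K A M, mul_comm]
  refine Nat.mul_le_mul_left _ ?_
  have hle := h1 K A B M hG
  have hdvd := Ideal.absNorm_dvd_absNorm_of_le hle
  rw [norm_map] at hdvd
  have hpos : 0 < relDisc K B ^ Module.finrank B M := Nat.pow_pos (h2.2.2 K B)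
  exact Nat.le_of_dvd hpos hdvd

end Pool.Agent.W412.ML2.DD
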